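import Pool.Agent.BEN.StmtsB

/-!
# Squad BEN, row MAI: the main theorem
-/

namespace Pool.Agent.BEN.H24

open Set Filter Topology MeasureTheory
open scoped InnerProductSpace ENNReal
open Pool.Agent.BE01 Pool.Agent.BEL Pool.Agent.BEF Pool.Agent.BEH

noncomputable section

variable {d : ℕ}

theorem mu_fin {Ω : Set (En d)} (hΩ : Dom Ω) : IsFiniteMeasure (mu Ω) := by
  unfold mu
  exact ⟨by
    rw [Measure.restrict_apply_univ]
    exact hΩ.2.1.measure_lt_top⟩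

theorem mu_real_le {Ω Ω' : Set (En d)} (hΩ : Dom Ω) (h : Ω' ⊆ Ω) :
    (mu Ω').real univ ≤ (mu Ω).real univ := by
  unfold mu
  rw [measureReal_restrict_apply_univ, measureReal_restrict_apply_univ]
  exact measureReal_mono h hΩ.2.1.measure_lt_top.ne

theorem mai (hAsn : AsnStmt) (hTmn : TmnStmt) (hJst : JstStmt) (hSol : SolStmt)
    (hFne : FneStmt) : MaiStmt := by
  intro d Ω p C0 B β hd hΩ hp hC0 hB hβ
  set V : ℝ := (mu Ω).real univ with hV
  set V' : ℝ := max 1 V with hV'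
  have hV'1 : 1 ≤ V' := le_max_left _ _
  set C1 : ℝ := V' * (2 * (1 + C0)) ^ (d + 1) with hC1
  have hC1pos : 0 < C1 := by positivity
  obtain ⟨M, hM⟩ := hAsn d p (2 * (2 * p + 1) * C1 * (2 ^ d) ^ (2 * p) * V' ^ (2 * p)) B β hp
    (by positivity) hB hβ
  refine ⟨M, ?_⟩
  intro Ω' hΩ' hsub X _ _ W Z hXok hWok hSbd m a ω φ hm ha hω hωB hφ hEvx hDmp hSlx
  have hfin : IsFiniteMeasure (mu Ω') := mu_fin hΩ'
  have hle : (mu Ω').real univ ≤ V := mu_real_le hΩ hsub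
  obtain ⟨A, L, hnm, hCu, hpr⟩ := hJst (En d) (mu Ω') d V X W (by omega) hle hXok
  obtain ⟨K, hK, hKpr⟩ := hSol (En d) (mu Ω') d V C0 X W A L hd hle hC0 hSbd hCu hpr
  obtain ⟨k, t1, b, N1, c, C, w, r, g, hk, hkb, hT⟩ :=
    hM X (Lp ℝ 2 (mu Ω')) W m a ω φ hm ha hω hωB hφ hEvx hDmp hSlx
  have hSlu : Slu W p a := by
    apply hTmn X (Lp ℝ 2 (mu Ω')) (Jt d (mu Ω')) W d p A V' C1 K L a k t1 b N1 c C w r g hK hKpr
      hd hp ha hC1pos (zero_le_one.trans hV'1) hk _ hT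
    rw [hnm]
    exact hkb
  exact hFne d Ω' X W Z p a hΩ' hp ha hXok hWok hSlu

end

end Pool.Agent.BEN.H24
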